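import Pool.Agent.ZTO.Stmts

/-!
Row CHN of table zto: existence of the chain (from row KER).
-/

set_option autoImplicit false

open scoped BigOperators

namespace Pool.Agent.ZTO.H77

/-- the iterated preimages -/
def Ac {G : Type} [Group G] (ψ : G →* G) (B : Subgroup G) : ℕ → Subgroup G
  | 0 => B
  | (i + 1) => (Ac ψ B i).comap ψ

/-- the ranges of the iterates -/
def Rc {G : Type} [Group G] (ψ : G →* G) : ℕ → Subgroup G
  | 0 => ⊤
  | (i + 1) => (Rc ψ i).map ψ

theorem rc_index {G : Type} [Group G] (ψ : G →* G) (p : ℕ) (hψ : Function.Injective ψ)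
    (hp : ψ.range.index = p) : ∀ i, (Rc ψ i).index = p ^ i
  | 0 => by simp [Rc]
  | (i + 1) => by
    show ((Rc ψ i).map ψ).index = _
    rw [Subgroup.index_map_of_injective _ hψ, rc_index ψ p hψ hp i, hp, pow_succ]

theorem rc_one {G : Type} [Group G] (ψ : G →* G) : Rc ψ 1 = ψ.range := by
  show (⊤ : Subgroup G).map ψ = _
  exact (MonoidHom.range_eq_map ψ).symm

theorem iter_mem {G : Type} [Group G] (ψ : G →* G) (B : Subgroup G) :
    ∀ i g, g ∈ Ac ψ B i ↔ (⇑ψ)^[i] g ∈ B
  | 0, _ => Iff.rfl
  | (i + 1), g => by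
    rw [Function.iterate_succ_apply]
    exact iter_mem ψ B i (ψ g)

theorem iter_rc {G : Type} [Group G] (ψ : G →* G) (hψ : Function.Injective ψ) (j : ℕ) :
    ∀ i g, (⇑ψ)^[i] g ∈ Rc ψ (j + i) → g ∈ Rc ψ j
  | 0, _ => fun h => h
  | (i + 1), g => by
    intro h
    rw [Function.iterate_succ_apply'] at h
    obtain ⟨x, hx, hxg⟩ := h
    have hx' : x ∈ Rc ψ (j + i) := hx
    rw [hψ hxg] at hx'
    exact iter_rc ψ hψ j i g hx'

/-- CHN. -/
theorem chn (hker : KerStmt) : ChnStmt := by
  intro G _ _ p ψ hp hψ hidx K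
  obtain ⟨hN, hF, hinv, -, -, hle, -⟩ := hker G (p ^ K)
  set B : Subgroup G := Ker G (p ^ K) with hB
  have hnrm : ∀ i, (Ac ψ B i).Normal := by
    intro i
    induction i with
    | zero => exact hN
    | succ i ih => exact ih.comap ψ
  have hmono : ∀ i, Ac ψ B i ≤ Ac ψ B (i + 1) := by
    intro i
    induction i with
    | zero => exact fun g hg => hinv ψ g hg
    | succ i ih => exact Subgroup.comap_mono ih
  -- the index formula
  have hformula : ∀ i, (Ac ψ B i).index = (Ac ψ B i ⊔ ψ.range).index * (Ac ψ B (i + 1)).index := by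
    intro i
    have := hnrm i
    have h1 : (Ac ψ B (i + 1)).index = (Ac ψ B i).relIndex ψ.range := Subgroup.index_comap _ ψ
    rw [h1, ← Subgroup.relIndex_sup_left ψ.range (Ac ψ B i), mul_comm,
      Subgroup.relIndex_mul_index le_sup_left]
  have hfin : ∀ i, (Ac ψ B i).index ≠ 0 := by
    intro i
    induction i with
    | zero => exact hF.index_ne_zero
    | succ i ih =>
      intro h0
      have h1 := hformula i
      rw [h0, mul_zero] at h1
      exact ih h1
  have hrel : ∀ i, (Ac ψ B i).relIndex (Ac ψ B (i + 1)) = (Ac ψ B i ⊔ ψ.range).index := by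
    intro i
    have h1 := Subgroup.relIndex_mul_index (hmono i)
    rw [hformula i] at h1
    exact Nat.eq_of_mul_eq_mul_right (Nat.pos_of_ne_zero (hfin (i + 1))) h1
  -- the first index with `¬ A i ≤ range`
  have hex : ∃ i, ¬ Ac ψ B i ≤ ψ.range := by
    by_contra hcon
    push Not at hcon
    have h1 : ∀ i, (Ac ψ B 0).index = p ^ i * (Ac ψ B i).index := by
      intro i
      induction i with
      | zero => simp
      | succ i ih =>
        have h2 : (Ac ψ B i ⊔ ψ.range).index = p := by
          rw [sup_eq_right.2 (hcon i)]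
          exact hidx
        rw [ih, hformula i, h2, pow_succ]
        ring
    have h3 := h1 ((Ac ψ B 0).index)
    have h4 : (Ac ψ B 0).index < p ^ (Ac ψ B 0).index := Nat.lt_pow_self hp.one_lt
    have h5 : p ^ (Ac ψ B 0).index ≤
        p ^ (Ac ψ B 0).index * (Ac ψ B ((Ac ψ B 0).index)).index :=
      Nat.le_mul_of_pos_right _ (Nat.pos_of_ne_zero (hfin _))
    omega
  classical
  have hspec : ¬ Ac ψ B (Nat.find hex) ≤ ψ.range := Nat.find_spec hex
  have hmin : ∀ i, i < Nat.find hex → Ac ψ B i ≤ ψ.range := by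
    intro i hi
    have := Nat.find_min hex hi
    push Not at this
    exact this
  have htop : Ac ψ B (Nat.find hex) ⊔ ψ.range = ⊤ := by
    have h1 : (Ac ψ B (Nat.find hex) ⊔ ψ.range).index ∣ p := by
      rw [← hidx]
      exact Subgroup.index_dvd_of_le le_sup_right
    rcases (Nat.dvd_prime hp).1 h1 with h2 | h2
    · exact Subgroup.index_eq_one.1 h2
    · exfalso
      apply hspec
      have h3 := Subgroup.relIndex_mul_index
        (le_sup_right : ψ.range ≤ Ac ψ B (Nat.find hex) ⊔ ψ.range)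
      rw [h2, hidx] at h3
      have h4 : ψ.range.relIndex (Ac ψ B (Nat.find hex) ⊔ ψ.range) = 1 := by
        have h5 : ψ.range.relIndex (Ac ψ B (Nat.find hex) ⊔ ψ.range) * p = 1 * p := by
          rw [h3, one_mul]
        exact Nat.eq_of_mul_eq_mul_right hp.pos h5
      exact le_sup_left.trans (Subgroup.relIndex_eq_one.1 h4)
  refine ⟨Nat.find hex, ?_, Ac ψ B, ?_, rfl⟩
  · rw [Nat.le_find_iff]
    intro i hi
    rw [not_not]
    intro g hg
    have h1 : B ≤ Rc ψ (1 + i) := by
      apply hle
      · rw [rc_index ψ p hψ hidx]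
        exact pow_ne_zero _ hp.ne_zero
      · rw [rc_index ψ p hψ hidx]
        exact Nat.pow_le_pow_right hp.pos (by omega)
    have h2 := iter_rc ψ hψ 1 i g (h1 ((iter_mem ψ B i g).1 hg))
    rw [rc_one] at h2
    exact h2
  · refine ⟨hnrm, fun i g => Iff.rfl, hmono, ?_, ?_, hmin, htop⟩
    · intro i hi
      rw [hrel i, sup_eq_right.2 (hmin i hi)]
      exact hidx
    · apply le_antisymm _ (hmono _)
      rw [← Subgroup.relIndex_eq_one, hrel, htop, Subgroup.index_top]

end Pool.Agent.ZTO.H77
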